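import Mathlib

/-!
# MP_36fb0d_co: there is no nonprincipal `E₂`-idempotent ultrafilter on `ℕ = {1,2,...}`

`E₂(p,q) = {A : {n : {m : m ^ n ∈ A} ∈ q} ∈ p}`.  We prove that `E₂(p,p) = p` holds only for the
principal ultrafilter at `1`.

Idea: assume `p = E₂(p,p)` is nonprincipal.  We define a counting function `K : ℕ → ℕ` such that
`K (m ^ n) = K n + 1` for `p`-almost all `n` and, given `n`, `p`-almost all `m`.  Then the parity
of `K` contradicts `E₂(p,p) = p`.  The function `K` is obtained by decoding `n` from `m ^ n`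
in a 2-adic way (the decoding is only approximate, but this is enough).
-/

namespace Pool.Agent.Results.MP_36fb0d_co.NoE2Idempotent

open Filter Topology

/-- The second exponentiation of ultrafilters on `ℕ = {1,2,...}`. -/
def E2 (p q : Ultrafilter ℕ+) : Ultrafilter ℕ+ :=
  p.bind fun n => q.map fun m => m ^ (n : ℕ)

theorem mem_E2 {p q : Ultrafilter ℕ+} {A : Set ℕ+} :
    A ∈ E2 p q ↔ {n : ℕ+ | {m : ℕ+ | m ^ (n : ℕ) ∈ A} ∈ q} ∈ p := Iff.rfl

section General

variable {p : Ultrafilter ℕ+} (hp : E2 p p = p)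

include hp

theorem ev_iff (P : ℕ+ → Prop) :
    (∀ᶠ x : ℕ+ in (p : Filter ℕ+), P x) ↔
      ∀ᶠ n : ℕ+ in (p : Filter ℕ+), ∀ᶠ m : ℕ+ in (p : Filter ℕ+), P (m ^ (n : ℕ)) := by
  have h : {x | P x} ∈ E2 p p ↔ {x | P x} ∈ p := by rw [hp]
  rw [mem_E2] at h
  exact h.symm

/-- The parity argument. -/
theorem parity (K : ℕ+ → ℕ)
    (hK : ∀ᶠ n : ℕ+ in (p : Filter ℕ+), ∀ᶠ m : ℕ+ in (p : Filter ℕ+), K (m ^ (n : ℕ)) = K n + 1) :
    False := by
  have key : ∀ (P : ℕ → Prop), (∀ k, P (k + 1) ↔ ¬ P k) →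
      ¬ ∀ᶠ x : ℕ+ in (p : Filter ℕ+), P (K x) := by
    intro P hP hx
    have h1 := (ev_iff hp (fun x => P (K x))).1 hx
    have h2 : ∀ᶠ n : ℕ+ in (p : Filter ℕ+), False := by
      filter_upwards [h1, hK, hx] with n hn1 hn2 hn3
      have h3 : ∀ᶠ m : ℕ+ in (p : Filter ℕ+), False := by
        filter_upwards [hn1, hn2] with m hm1 hm2
        rw [hm2, hP] at hm1
        exact hm1 hn3
      exact h3.exists.choose_spec
    exact h2.exists.choose_spec
  have h0 : (∀ᶠ x : ℕ+ in (p : Filter ℕ+), Even (K x)) ∨ ∀ᶠ x : ℕ+ in (p : Filter ℕ+), ¬ Even (K x) := by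
    rw [← Ultrafilter.eventually_or]
    exact Eventually.of_forall fun x => em _
  rcases h0 with h | h
  · exact key Even (fun k => Nat.even_add_one) h
  · refine key (fun k => ¬ Even k) (fun k => ?_) h
    rw [Nat.even_add_one]

/-- Iterated limits along an `E₂`-idempotent. -/
theorem iter_lim {X : Type*} [TopologicalSpace X] [T3Space X] {f : ℕ+ → X} {a c : X} {b : ℕ+ → X}
    (hf : Tendsto f p (𝓝 a))
    (hb : ∀ᶠ n : ℕ+ in (p : Filter ℕ+), Tendsto (fun m : ℕ+ => f (m ^ (n : ℕ))) p (𝓝 (b n)))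
    (hc : Tendsto b p (𝓝 c)) : a = c := by
  have h : Tendsto b p (𝓝 a) := by
    rw [(closed_nhds_basis a).tendsto_right_iff]
    rintro U ⟨hU, hUc⟩
    have h1 : ∀ᶠ x : ℕ+ in (p : Filter ℕ+), f x ∈ U := hf hU
    rw [ev_iff hp] at h1
    filter_upwards [h1, hb] with n hn1 hn2
    exact hUc.mem_of_tendsto hn2 hn1
  exact tendsto_nhds_unique h hc

end General

/-- limits along ultrafilters in compact spaces -/
theorem exists_lim {X : Type*} [TopologicalSpace X] [CompactSpace X] (p : Ultrafilter ℕ+)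
    (f : ℕ+ → X) : ∃ a, Tendsto f p (𝓝 a) := by
  obtain ⟨a, -, ha⟩ := isCompact_univ.ultrafilter_le_nhds (p.map f) (by simp)
  exact ⟨a, ha⟩

/-! ### The chain counting function -/

section Chain

variable {X : Type*} (N : X → ℝ) (T : X → X)

/-- first index where the quantity `N` does not increase along the `T`-orbit -/
noncomputable def K (z : X) : ℕ := sInf {k | N (T^[k + 1] z) ≤ N (T^[k] z)}

theorem K_eq {z : X} {k : ℕ} (h1 : ∀ j < k, N (T^[j] z) < N (T^[j + 1] z))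
    (h2 : N (T^[k + 1] z) ≤ N (T^[k] z)) : K N T z = k := by
  unfold K
  apply le_antisymm
  · exact Nat.sInf_le h2
  · by_contra hlt
    push Not at hlt
    have hmem := Nat.sInf_mem (s := {k | N (T^[k + 1] z) ≤ N (T^[k] z)}) ⟨k, h2⟩
    have := h1 _ hlt
    exact absurd hmem (not_le.2 this)

theorem K_spec {z : X} (hne : ∃ k, N (T^[k + 1] z) ≤ N (T^[k] z)) :
    (∀ j < K N T z, N (T^[j] z) < N (T^[j + 1] z)) ∧
      N (T^[K N T z + 1] z) ≤ N (T^[K N T z] z) := by
  constructor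
  · intro j hj
    by_contra hlt
    push Not at hlt
    exact absurd (Nat.sInf_le (s := {k | N (T^[k + 1] z) ≤ N (T^[k] z)}) hlt) (not_le.2 hj)
  · exact Nat.sInf_mem (s := {k | N (T^[k + 1] z) ≤ N (T^[k] z)}) hne

theorem K_succ {z : X} (hne : ∃ k, N (T^[k + 1] (T z)) ≤ N (T^[k] (T z))) (h : N z < N (T z)) :
    K N T z = K N T (T z) + 1 := by
  obtain ⟨h1, h2⟩ := K_spec N T hne
  refine K_eq N T ?_ ?_
  · intro j hj
    rcases j with _ | j
    · simpa using h
    · have := h1 j (by omega)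
      simpa only [Function.iterate_succ, Function.comp] using this
  · simpa only [Function.iterate_succ, Function.comp] using h2

end Chain

/-! ### 2-adic preliminaries -/

/-- the norm of `z - 1` -/
noncomputable def N1 (z : ℤ_[2]) : ℝ := ‖z - 1‖

theorem N1_dec (T : ℤ_[2] → ℤ_[2]) {z : ℤ_[2]} (hz : z ≠ 1) :
    ∃ k, N1 (T^[k + 1] z) ≤ N1 (T^[k] z) := by
  by_contra hcon
  push Not at hcon
  have hne : ∀ k, T^[k] z - 1 ≠ 0 := by
    intro k
    rcases k with _ | k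
    · simpa [sub_eq_zero] using hz
    · have := hcon k
      intro h0
      unfold N1 at this
      rw [h0, norm_zero] at this
      exact absurd (norm_nonneg _) (not_le.2 this)
  have hdec : ∀ k, (T^[k + 1] z - 1).valuation < (T^[k] z - 1).valuation := by
    intro k
    have h1 := hcon k
    unfold N1 at h1
    rw [PadicInt.norm_eq_zpow_neg_valuation (hne k),
      PadicInt.norm_eq_zpow_neg_valuation (hne (k + 1))] at h1
    have h2 : (1 : ℝ) < ((2 : ℕ) : ℝ) := by norm_num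
    have h3 := (zpow_lt_zpow_iff_right₀ h2).1 h1
    omega
  have hle : ∀ k, (T^[k] z - 1).valuation + k ≤ (z - 1).valuation := by
    intro k
    induction k with
    | zero => simp
    | succ k ih => have := hdec k; omega
  have := hle ((z - 1).valuation + 1)
  omega

/-- eventual equality of norms near a nonzero point -/
theorem ev_norm_eq {ι : Type*} {F : Filter ι} {x : ι → ℤ_[2]} {z : ℤ_[2]} (hx : Tendsto x F (𝓝 z))
    (hz : z ≠ 0) : ∀ᶠ i in F, ‖x i‖ = ‖z‖ := by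
  have h1 : ∀ᶠ i in F, ‖x i - z‖ < ‖z‖ := by
    have h2 : Tendsto (fun i => ‖x i - z‖) F (𝓝 0) := by
      have := (hx.sub_const z).norm
      simpa using this
    exact h2.eventually_lt_const (norm_pos_iff.2 hz)
  filter_upwards [h1] with i hi
  have h3 : x i = (x i - z) + z := by ring
  rw [h3, PadicInt.norm_add_eq_max_of_ne (ne_of_lt hi), max_eq_right hi.le]

/-- the key continuity statement for the counting function -/
theorem ev_K {ι : Type*} {F : Filter ι} {T : ℤ_[2] → ℤ_[2]} (hT : ∀ z, z ≠ 1 → ContinuousAt T z)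
    {x : ι → ℤ_[2]} {z : ℤ_[2]} (hz : z ≠ 1) (hx : Tendsto x F (𝓝 1))
    (hTx : Tendsto (fun i => T (x i)) F (𝓝 z)) :
    ∀ᶠ i in F, K N1 T (x i) = K N1 T z + 1 := by
  obtain ⟨h1, h2⟩ := K_spec N1 T (N1_dec T hz)
  set k := K N1 T z with hk
  have hN0 : ∀ y, 0 ≤ N1 y := fun y => norm_nonneg _
  have hne : ∀ j ≤ k, T^[j] z ≠ 1 := by
    intro j hj
    rcases j with _ | j
    · simpa using hz
    · have h3 := h1 j (by omega)
      intro h0
      have h4 : N1 (T^[j + 1] z) = 0 := by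
        rw [h0]; simp [N1]
      rw [h4] at h3
      exact absurd (hN0 _) (not_le.2 h3)
  have hlim : ∀ j ≤ k + 1, Tendsto (fun i => T^[j] (T (x i))) F (𝓝 (T^[j] z)) := by
    intro j
    induction j with
    | zero => intro _; simpa using hTx
    | succ j ih =>
      intro hj
      have h3 := ih (by omega)
      have h4 := (hT _ (hne j (by omega))).tendsto.comp h3
      simpa only [Function.comp_def, ← Function.iterate_succ_apply'] using h4
  have hNlim : ∀ j ≤ k + 1, Tendsto (fun i => N1 (T^[j] (T (x i)))) F (𝓝 (N1 (T^[j] z))) := by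
    intro j hj
    exact ((hlim j hj).sub_const 1).norm
  -- (a)
  have ha : ∀ᶠ i in F, N1 (x i) < N1 (T (x i)) := by
    have h3 : Tendsto (fun i => N1 (x i)) F (𝓝 0) := by
      have := (hx.sub_const 1).norm
      simpa [N1] using this
    have h4 := hNlim 0 (by omega)
    refine h3.eventually_lt h4 ?_
    simpa [N1, sub_eq_zero] using hz
  -- (b)
  have hb : ∀ᶠ i in F, ∀ j < k, N1 (T^[j] (T (x i))) < N1 (T^[j + 1] (T (x i))) := by
    have h3 : ∀ j ∈ Set.Iio k, ∀ᶠ i in F, N1 (T^[j] (T (x i))) < N1 (T^[j + 1] (T (x i))) := by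
      intro j hj
      have hj' : j < k := hj
      exact (hNlim j (by omega)).eventually_lt (hNlim (j + 1) (by omega)) (h1 j hj')
    have h4 := (Set.finite_Iio k).eventually_all.2 h3
    simpa using h4
  -- (c)
  have hc : ∀ᶠ i in F, N1 (T^[k + 1] (T (x i))) ≤ N1 (T^[k] (T (x i))) := by
    have hk1 : T^[k] z - 1 ≠ 0 := sub_ne_zero.2 (hne k le_rfl)
    have h3 : ∀ᶠ i in F, ‖T^[k] (T (x i)) - 1‖ = ‖T^[k] z - 1‖ :=
      ev_norm_eq ((hlim k (by omega)).sub_const 1) hk1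
    have h4 : ∀ᶠ i in F, ‖T^[k + 1] (T (x i)) - T^[k + 1] z‖ < ‖T^[k] z - 1‖ := by
      have h5 : Tendsto (fun i => ‖T^[k + 1] (T (x i)) - T^[k + 1] z‖) F (𝓝 0) := by
        have := ((hlim (k + 1) le_rfl).sub_const (T^[k + 1] z)).norm
        simpa using this
      exact h5.eventually_lt_const (norm_pos_iff.2 hk1)
    filter_upwards [h3, h4] with i hi3 hi4
    have h5 : T^[k + 1] (T (x i)) - 1 =
        (T^[k + 1] (T (x i)) - T^[k + 1] z) + (T^[k + 1] z - 1) := by ring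
    unfold N1
    rw [hi3, h5]
    exact (PadicInt.nonarchimedean _ _).trans (max_le hi4.le h2)
  filter_upwards [ha, hb, hc] with i hia hib hic
  refine K_eq N1 T ?_ ?_
  · intro j hj
    rcases j with _ | j
    · simpa using hia
    · have := hib j (by omega)
      simpa only [Function.iterate_succ, Function.comp] using this
  · simpa only [Function.iterate_succ, Function.comp] using hic


open Classical in
/-- the unit part of a 2-adic integer -/
noncomputable def W (y : ℤ_[2]) : ℤ_[2] :=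
  if h : y ≠ 0 then ((PadicInt.unitCoeff h : ℤ_[2]ˣ) : ℤ_[2]) else 0

theorem W_spec {y : ℤ_[2]} (h : y ≠ 0) : W y * 2 ^ y.valuation = y := by
  unfold W
  rw [dif_pos h]
  exact_mod_cast (PadicInt.unitCoeff_spec h).symm

theorem W_norm {y : ℤ_[2]} (h : y ≠ 0) : ‖W y‖ = 1 := by
  unfold W
  rw [dif_pos h]
  exact PadicInt.norm_units _

theorem two_ne : (2 : ℤ_[2]) ≠ 0 := by norm_num

theorem W_of {y w : ℤ_[2]} {k : ℕ} (hw : ‖w‖ = 1) (h : w * 2 ^ k = y) : W y = w := by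
  have hw0 : w ≠ 0 := by
    intro h0; rw [h0, norm_zero] at hw; exact zero_ne_one hw
  have hy : y ≠ 0 := by
    rw [← h]; exact mul_ne_zero hw0 (pow_ne_zero _ two_ne)
  have h1 := W_spec hy
  have h2 : ‖y‖ = ‖(2 : ℤ_[2])‖ ^ k := by rw [← h, norm_mul, hw, one_mul, norm_pow]
  have h3 : ‖y‖ = ‖(2 : ℤ_[2])‖ ^ y.valuation := by
    conv_lhs => rw [← h1]
    rw [norm_mul, W_norm hy, one_mul, norm_pow]
  have h4 : ‖(2 : ℤ_[2])‖ = 2⁻¹ := by
    have := PadicInt.norm_p (p := 2)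
    simpa using this
  have h5 : k = y.valuation := by
    rw [h2, h4] at h3
    exact pow_right_injective₀ (by norm_num : (0 : ℝ) < 2⁻¹) (by norm_num) h3
  rw [← h5] at h1
  exact mul_right_cancel₀ (pow_ne_zero k two_ne) (h1.trans h.symm)

theorem W_mul_unit {y s : ℤ_[2]} (hy : y ≠ 0) (hs : ‖s‖ = 1) : W (y * s) = W y * s := by
  apply W_of (k := y.valuation)
  · rw [norm_mul, W_norm hy, hs, one_mul]
  · rw [mul_right_comm, W_spec hy]

theorem W_cont {y : ℤ_[2]} (hy : y ≠ 0) : ContinuousAt W y := by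
  have h1 : ∀ᶠ x in 𝓝 y, ‖x‖ = ‖y‖ := ev_norm_eq (x := fun x => x) tendsto_id hy
  have h4 : ‖(2 : ℤ_[2])‖ = 2⁻¹ := by
    have := PadicInt.norm_p (p := 2)
    simpa using this
  have hform : ∀ z : ℤ_[2], z ≠ 0 → ‖z‖ = 2⁻¹ ^ z.valuation := by
    intro z hz
    conv_lhs => rw [← W_spec hz]
    rw [norm_mul, W_norm hz, one_mul, norm_pow, h4]
  have h2 : ∀ᶠ x in 𝓝 y, ‖W x - W y‖ ≤ 2 ^ y.valuation * ‖x - y‖ := by
    filter_upwards [h1] with x hx
    have hx0 : x ≠ 0 := by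
      intro h0; rw [h0, norm_zero] at hx
      exact hy (norm_eq_zero.1 hx.symm)
    have hv : x.valuation = y.valuation := by
      rw [hform x hx0, hform y hy] at hx
      exact pow_right_injective₀ (by norm_num : (0 : ℝ) < 2⁻¹) (by norm_num) hx
    have h5 : (W x - W y) * 2 ^ y.valuation = x - y := by
      rw [sub_mul, W_spec hy, ← hv, W_spec hx0]
    have h6 : ‖x - y‖ = ‖W x - W y‖ * 2⁻¹ ^ y.valuation := by
      rw [← h5, norm_mul, norm_pow, h4]
    rw [h6, mul_comm, mul_assoc, ← mul_pow]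
    norm_num
  rw [ContinuousAt, tendsto_iff_norm_sub_tendsto_zero]
  have h7 : Tendsto (fun x => 2 ^ y.valuation * ‖x - y‖) (𝓝 y) (𝓝 (2 ^ y.valuation * 0)) := by
    apply Tendsto.const_mul
    have h8 : Tendsto (fun x : ℤ_[2] => x) (𝓝 y) (𝓝 y) := tendsto_id
    have := (h8.sub_const y).norm
    simpa using this
  rw [mul_zero] at h7
  exact squeeze_zero' (Eventually.of_forall fun x => norm_nonneg _) h2 h7

/-! ### The two cases -/

section Cases

variable {p : Ultrafilter ℕ+} (hp : E2 p p = p) (hnp : ∀ a, p ≠ pure a)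

/-- odd part of a natural number -/
def od (a : ℕ) : ℕ := a / 2 ^ a.factorization 2

theorem od_mul (a b : ℕ) : od (a * b) = od a * od b := Nat.ordCompl_mul a b 2

theorem od_norm {a : ℕ} (ha : a ≠ 0) : ‖((od a : ℕ) : ℤ_[2])‖ = 1 := by
  rw [PadicInt.norm_natCast_eq_one_iff]
  exact Nat.coprime_ordCompl Nat.prime_two ha

theorem od_odd {a : ℕ} (ha : ¬ 2 ∣ a) : od a = a := by
  unfold od
  rw [Nat.factorization_eq_zero_of_not_dvd ha]; simp

/-- the exponent of the least prime factor -/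
def expo (x : ℕ) : ℕ := x.factorization x.minFac

theorem expo_pow {m n : ℕ} (hn : n ≠ 0) : expo (m ^ n) = n * expo m := by
  unfold expo
  rw [Nat.pow_minFac hn, Nat.factorization_pow]
  simp

theorem expo_ne {m : ℕ} (hm : 2 ≤ m) : expo m ≠ 0 := by
  unfold expo
  have h1 : m.minFac.Prime := Nat.minFac_prime (by omega)
  exact (h1.factorization_pos_of_dvd (by omega) (Nat.minFac_dvd m)).ne'

include hnp in
theorem ev_ne (a : ℕ+) : ∀ᶠ x : ℕ+ in (p : Filter ℕ+), x ≠ a := by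
  by_contra h
  rw [← Ultrafilter.eventually_not] at h
  simp only [not_not] at h
  apply hnp a
  apply Ultrafilter.coe_injective
  apply le_antisymm
  · rw [Ultrafilter.coe_pure]
    intro s hs
    rw [mem_pure] at hs
    filter_upwards [h] with x hx
    rw [hx]; exact hs
  · rw [Ultrafilter.coe_pure]
    intro s hs
    rw [mem_pure]
    by_contra hna
    have h2 : ∀ᶠ x : ℕ+ in (p : Filter ℕ+), False := by
      filter_upwards [h, hs] with x hx hxs
      rw [hx] at hxs; exact hna hxs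
    exact h2.exists.choose_spec

include hp hnp in
/-- the odd case -/
theorem odd_case (hodd : ∀ᶠ x : ℕ+ in (p : Filter ℕ+), ¬ 2 ∣ (x : ℕ)) : False := by
  -- typical elements are at least 2
  have hge : ∀ᶠ x : ℕ+ in (p : Filter ℕ+), 2 ≤ (x : ℕ) := by
    filter_upwards [ev_ne hnp 1] with x hx
    have h1 : (x : ℕ) ≠ 1 := fun h => hx (PNat.coe_injective h)
    have h2 := x.pos
    omega
  -- the limit of `x` is `1`
  obtain ⟨π, hπ⟩ := exists_lim p (fun x : ℕ+ => ((x : ℕ) : ℤ_[2]))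
  have hπ1 : π = 1 := by
    obtain ⟨θ, hθ⟩ := exists_lim p (fun x : ℕ+ => ((od (expo x) : ℕ) : ℤ_[2]))
    have hb : ∀ᶠ n : ℕ+ in (p : Filter ℕ+),
        Tendsto (fun m : ℕ+ => ((od (expo ((m ^ (n : ℕ) : ℕ+) : ℕ)) : ℕ) : ℤ_[2])) p
          (𝓝 (((n : ℕ) : ℤ_[2]) * θ)) := by
      filter_upwards [hodd] with n hn
      have h1 : (fun m : ℕ+ => ((od (expo ((m ^ (n : ℕ) : ℕ+) : ℕ)) : ℕ) : ℤ_[2])) =
          fun m : ℕ+ => ((n : ℕ) : ℤ_[2]) * ((od (expo m) : ℕ) : ℤ_[2]) := by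
        funext m
        rw [PNat.pow_coe, expo_pow n.ne_zero, od_mul, od_odd hn, Nat.cast_mul]
      rw [h1]
      exact hθ.const_mul _
    have hc : Tendsto (fun n : ℕ+ => ((n : ℕ) : ℤ_[2]) * θ) p (𝓝 (π * θ)) := hπ.mul_const θ
    have h2 := iter_lim hp hθ hb hc
    have h3 : ‖θ‖ = 1 := by
      have h4 : ∀ᶠ x : ℕ+ in (p : Filter ℕ+), ‖((od (expo x) : ℕ) : ℤ_[2])‖ = 1 := by
        filter_upwards [hge] with x hx
        exact od_norm (expo_ne hx)
      have h5 : Tendsto (fun x : ℕ+ => ‖((od (expo x) : ℕ) : ℤ_[2])‖) p (𝓝 1) :=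
        tendsto_const_nhds.congr' (h4.mono fun x hx => hx.symm)
      exact tendsto_nhds_unique hθ.norm h5
    have h6 : θ ≠ 0 := by
      intro h0; rw [h0, norm_zero] at h3; exact zero_ne_one h3
    exact (mul_right_cancel₀ h6 (by rw [one_mul]; exact h2)).symm
  rw [hπ1] at hπ
  -- the limit of the unit part of `x - 1`
  obtain ⟨υ, hυ⟩ := exists_lim p (fun x : ℕ+ => W (((x : ℕ) : ℤ_[2]) - 1))
  have hne1 : ∀ x : ℕ+, 2 ≤ (x : ℕ) → ((x : ℕ) : ℤ_[2]) ≠ 1 := by
    intro x hx h0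
    have : (x : ℕ) = 1 := by exact_mod_cast h0
    omega
  have hυ1 : ‖υ‖ = 1 := by
    have h4 : ∀ᶠ x : ℕ+ in (p : Filter ℕ+), ‖W (((x : ℕ) : ℤ_[2]) - 1)‖ = 1 := by
      filter_upwards [hge] with x hx
      exact W_norm (sub_ne_zero.2 (hne1 x hx))
    have h5 : Tendsto (fun x : ℕ+ => ‖W (((x : ℕ) : ℤ_[2]) - 1)‖) p (𝓝 1) :=
      tendsto_const_nhds.congr' (h4.mono fun x hx => hx.symm)
    exact tendsto_nhds_unique hυ.norm h5
  obtain ⟨υi, hυi⟩ := (PadicInt.isUnit_iff.2 hυ1).exists_right_inv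
  set T : ℤ_[2] → ℤ_[2] := fun z => υi * W (z - 1) with hTdef
  have hT : ∀ z, z ≠ 1 → ContinuousAt T z := by
    intro z hz
    have h1 : ContinuousAt (fun z : ℤ_[2] => z - 1) z := by fun_prop
    have h2 : ContinuousAt W (z - 1) := W_cont (sub_ne_zero.2 hz)
    have h3 : ContinuousAt (fun z : ℤ_[2] => W (z - 1)) z :=
      ContinuousAt.comp (f := fun z : ℤ_[2] => z - 1) h2 h1
    exact continuousAt_const.mul h3
  apply parity hp (fun x : ℕ+ => K N1 T ((x : ℕ) : ℤ_[2]))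
  filter_upwards [hge, hodd] with n hn hn2
  have hx : Tendsto (fun m : ℕ+ => (((m ^ (n : ℕ) : ℕ+) : ℕ) : ℤ_[2])) p (𝓝 1) := by
    have h1 := hπ.pow (n : ℕ)
    rw [one_pow] at h1
    refine h1.congr fun m => ?_
    rw [PNat.pow_coe, Nat.cast_pow]
  have hS : Tendsto (fun m : ℕ+ => ∑ i ∈ Finset.range (n : ℕ), ((m : ℕ) : ℤ_[2]) ^ i) p
      (𝓝 ((n : ℕ) : ℤ_[2])) := by
    have h1 : Tendsto (fun m : ℕ+ => ∑ i ∈ Finset.range (n : ℕ), ((m : ℕ) : ℤ_[2]) ^ i) p
        (𝓝 (∑ i ∈ Finset.range (n : ℕ), (1 : ℤ_[2]) ^ i)) :=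
      tendsto_finsetSum _ fun i _ => hπ.pow i
    simpa using h1
  have hn0 : ‖((n : ℕ) : ℤ_[2])‖ = 1 := by
    rw [PadicInt.norm_natCast_eq_one_iff]
    exact (Nat.Prime.coprime_iff_not_dvd Nat.prime_two).2 hn2
  have hTx : Tendsto (fun m : ℕ+ => T (((m ^ (n : ℕ) : ℕ+) : ℕ) : ℤ_[2])) p
      (𝓝 ((n : ℕ) : ℤ_[2])) := by
    have h1 : ∀ᶠ m : ℕ+ in (p : Filter ℕ+),
        υi * (W (((m : ℕ) : ℤ_[2]) - 1) * ∑ i ∈ Finset.range (n : ℕ), ((m : ℕ) : ℤ_[2]) ^ i) =
        T (((m ^ (n : ℕ) : ℕ+) : ℕ) : ℤ_[2]) := by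
      have h2 : ∀ᶠ m : ℕ+ in (p : Filter ℕ+),
          ‖∑ i ∈ Finset.range (n : ℕ), ((m : ℕ) : ℤ_[2]) ^ i‖ = ‖((n : ℕ) : ℤ_[2])‖ := by
        apply ev_norm_eq hS
        intro h0; rw [h0, norm_zero] at hn0; exact zero_ne_one hn0
      filter_upwards [h2, hge] with m hm2 hm
      rw [hn0] at hm2
      rw [hTdef]
      simp only
      rw [PNat.pow_coe, Nat.cast_pow, ← mul_geom_sum, W_mul_unit (sub_ne_zero.2 (hne1 m hm)) hm2]
    refine Tendsto.congr' h1 ?_
    have h3 := (hυ.mul hS).const_mul υi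
    rw [← mul_assoc, mul_comm υi υ, hυi, one_mul] at h3
    exact h3
  exact ev_K hT (hne1 n hn) hx hTx

/-- iterated valuation -/
def ff (x : ℕ) : ℕ := (x.factorization 2).factorization 2

include hp hnp in
/-- the even case -/
theorem even_case (heven : ∀ᶠ x : ℕ+ in (p : Filter ℕ+), 2 ∣ (x : ℕ)) : False := by
  obtain ⟨ω, hω⟩ := exists_lim p (fun x : ℕ+ => ((ff x : ℕ) : ℤ_[2]))
  set V : ℕ → ℕ := fun y => ((y : ℤ_[2]) - ω).valuation with hV
  -- the chain function on `ℕ`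
  have hdec : ∀ y : ℕ, ∃ k, (fun a : ℕ => -(a : ℝ)) (V^[k + 1] y) ≤
      (fun a : ℕ => -(a : ℝ)) (V^[k] y) := by
    intro y
    by_contra hcon
    push Not at hcon
    have h1 : ∀ k, V^[k] y + k ≤ y := by
      intro k
      induction k with
      | zero => simp
      | succ k ih =>
        have h2 := hcon k
        simp only [neg_lt_neg_iff, Nat.cast_lt] at h2
        omega
    have := h1 (y + 1)
    omega
  apply parity hp (fun x : ℕ+ => K (fun a : ℕ => -(a : ℝ)) V (ff x))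
  filter_upwards [heven] with n hn
  have hv1 : 1 ≤ (n : ℕ).factorization 2 := by
    exact Nat.prime_two.factorization_pos_of_dvd n.ne_zero hn
  have hlim : Tendsto (fun m : ℕ+ => (((n : ℕ).factorization 2 : ℕ) : ℤ_[2]) +
      (((ff m : ℕ) : ℤ_[2]) - ω)) p (𝓝 (((n : ℕ).factorization 2 : ℕ) : ℤ_[2])) := by
    have h1 := (hω.sub_const ω).const_add ((((n : ℕ).factorization 2 : ℕ) : ℤ_[2]))
    simpa using h1
  have hne : (((n : ℕ).factorization 2 : ℕ) : ℤ_[2]) ≠ 0 := by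
    have : (n : ℕ).factorization 2 ≠ 0 := by omega
    exact_mod_cast this
  filter_upwards [heven, ev_norm_eq hlim hne] with m hm hnorm
  have hvm : 1 ≤ (m : ℕ).factorization 2 := by
    exact Nat.prime_two.factorization_pos_of_dvd m.ne_zero hm
  have hffm : ff ((m ^ (n : ℕ) : ℕ+) : ℕ) = (n : ℕ).factorization 2 + ff m := by
    unfold ff
    rw [PNat.pow_coe, Nat.factorization_pow, Finsupp.smul_apply, smul_eq_mul,
      Nat.factorization_mul n.ne_zero (by omega), Finsupp.add_apply]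
  have hVx : V (ff ((m ^ (n : ℕ) : ℕ+) : ℕ)) = ff n := by
    rw [hV]
    simp only
    rw [hffm, Nat.cast_add, add_sub_assoc]
    have h1 : ((((n : ℕ).factorization 2 : ℕ) : ℤ_[2]) +
      (((ff m : ℕ) : ℤ_[2]) - ω)) ≠ 0 := by
      intro h0
      rw [h0, norm_zero] at hnorm
      exact hne (norm_eq_zero.1 hnorm.symm)
    rw [PadicInt.norm_eq_zpow_neg_valuation h1, PadicInt.norm_eq_zpow_neg_valuation hne] at hnorm
    have h2 := zpow_right_injective₀ (by norm_num : (0 : ℝ) < ((2 : ℕ) : ℝ))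
      (by norm_num) hnorm
    have h3 : ((((n : ℕ).factorization 2 : ℕ) : ℤ_[2])).valuation = ff n := by
      have h5 : ((((((n : ℕ).factorization 2 : ℕ) : ℤ_[2])).valuation : ℕ) : ℤ) =
          ((ff n : ℕ) : ℤ) := by
        rw [← PadicInt.valuation_coe, PadicInt.coe_natCast, Padic.valuation_natCast]
        unfold ff
        rw [← Nat.factorization_def _ Nat.prime_two]
      exact_mod_cast h5
    rw [← h3]
    omega
  show K _ V (ff ((m ^ (n : ℕ) : ℕ+) : ℕ)) = _
  rw [← hVx]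
  refine K_succ _ V (hdec _) ?_
  rw [hVx, hffm]
  simp only [neg_lt_neg_iff, Nat.cast_lt]
  have h4 : ff n < (n : ℕ).factorization 2 := Nat.factorization_lt 2 (by omega)
  omega

end Cases

theorem E2_pure_one : E2 (pure 1) (pure 1) = pure 1 := by
  ext A
  rw [mem_E2]
  simp

/-- **Main theorem**: `E₂(p,p) = p` holds if and only if `p` is the principal ultrafilter at `1`. -/
theorem result :
    (∀ (p q : Ultrafilter ℕ+) (A : Set ℕ+),
      A ∈ E2 p q ↔ {n : ℕ+ | {m : ℕ+ | m ^ (n : ℕ) ∈ A} ∈ q} ∈ p) ∧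
    ∀ p : Ultrafilter ℕ+, E2 p p = p ↔ p = pure 1 := by
  refine ⟨fun p q A => Iff.rfl, fun p => ⟨fun hp => ?_, fun h => by rw [h]; exact E2_pure_one⟩⟩
  by_cases hnp : ∀ a, p ≠ pure a
  · exfalso
    have h0 : (∀ᶠ x : ℕ+ in (p : Filter ℕ+), 2 ∣ (x : ℕ)) ∨
        ∀ᶠ x : ℕ+ in (p : Filter ℕ+), ¬ 2 ∣ (x : ℕ) := by
      rw [← Ultrafilter.eventually_or]
      exact Eventually.of_forall fun x => em _
    rcases h0 with h | h
    · exact even_case hp hnp h
    · exact odd_case hp hnp h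
  · push Not at hnp
    obtain ⟨a, rfl⟩ := hnp
    have h1 : ({a ^ (a : ℕ)} : Set ℕ+) ∈ E2 (pure a) (pure a) := by
      rw [mem_E2]; simp
    rw [hp] at h1
    have h2 : a = a ^ (a : ℕ) := by simpa using h1
    have h3 : (a : ℕ) = (a : ℕ) ^ (a : ℕ) := by
      conv_lhs => rw [h2]
      rw [PNat.pow_coe]
    have h4 : (a : ℕ) = 1 := by
      have hpos := a.pos
      by_contra hne
      have h5 : 2 ≤ (a : ℕ) := by omega
      have h6 : (a : ℕ) ^ 1 < (a : ℕ) ^ (a : ℕ) := Nat.pow_lt_pow_right (by omega) (by omega)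
      rw [pow_one] at h6
      exact absurd h3 h6.ne
    have h5 : a = 1 := PNat.coe_injective h4
    rw [h5]

end Pool.Agent.Results.MP_36fb0d_co.NoE2Idempotent
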